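import Pool.Agent.Helper10.PC.Pair

/-!
# BSD over function fields and smooth moduli surfaces of planar configurations

Let `k` be a finite field of characteristic `p`, `X` a curve over `k`, `E` an elliptic curve over
`K = k(X)`, and `S` a smooth projective surface over `𝔽_p` with a map to `X` whose generic fibre is `E` (the
elliptic surface, considered as a scheme over `𝔽_p`). Let `ℓ ≠ p` be a prime number. By theorems of Artin,
Tate and Milne the rank of `E(K)` is equal to the order of `L(E/K, T)` at `q^{-1}` if and only if the Galois
invariant classes in `H^2(S̄, ℚ_ℓ(1))` are `ℚ_ℓ`-linear combinations of the classes of divisors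
(`artin_tate`).

Only divisors are used. For a smooth projective scheme `Y` over `𝔽_p` let `A(Y)` be the `ℚ_ℓ`-subspace of
`H^2(Ȳ, ℚ_ℓ(1))` generated by the classes of the divisors on `Y`, and `B(Y)` the sum of `A(Y)` and of the
images `c_*(τ)` of the Galois invariant classes `τ` in `H^2(S̄, ℚ_ℓ(1))`, for the cycles `c` of codimension
`2` on `S × Y`, `c_*(τ) = pr_{Y*}(c · pr_S^* τ)`. Both are additive functors of the effective Chow motive
of `Y`, and they are equal if and only if the classes `c_*(τ)` are algebraic (`Stable`). For a separated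
scheme `Z` of finite type over `𝔽_p` let `W(Z)` be its weight complex (Gillet, Soulé, Bondarko; a complex of
effective Chow motives, `W(Z) = h(Z)` for smooth projective `Z`), and put `A^i(Z) = H^i(A(W(Z)))`,
`B^i(Z) = H^i(B(W(Z)))`. `BijAll C Z` says that the maps `A^i(Z) → B^i(Z)` are isomorphisms for all `i`. The
facts which are used: isomorphism invariance, `W(∅) = 0`, long exact sequences of closed-open pairs
(`IsCutPair`; neither Tate twists, nor affine bundles, nor products with `𝔾_m`), and that `W(Z)` consists of
direct factors of motives of smooth projective schemes whose dimension is at most the dimension of `Z`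
(`AllGen`, `BijDim`; by the alterations of de Jong).

A matroid `M` of rank three on the set `Fin 4 ⊕ Fin n` is **framed** if any three of the four elements of
`Fin 4` form a base; it is **simple** if any two elements are independent. Let `modS 𝔽_p M` be the moduli
space of the configurations of `n + 4` different points in the projective plane over `𝔽_p` in which exactly
the triples prescribed by `M` are collinear, modulo projective transformations: the four points of `Fin 4`
are the points of `e_1, e_2, e_3, e_1 + e_2 + e_3`, and the other ones have normalised coordinates.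

**Theorem.** (1) For each `S` there is a finite list `L` of simple matroids of rank three, whose moduli
spaces are integral, smooth, and of dimension at most two (at most `dim S`), such that for all `ℓ ≠ p` the
following statements are equivalent: `rk E(K) = ord L(E/K, T)`; the maps `A^i(Z) → B^i(Z)` are isomorphisms
for all separated schemes `Z` of finite type over `𝔽_p`; they are isomorphisms for the finitely many
moduli spaces `Z = modS 𝔽_p M`, `M` in `L`.

(2) Take for `B(Y)` the sum of `A(Y)` and of the images `c_*(τ)` for **all** elliptic surfaces `S` of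
characteristic `p`. The following are equivalent: question Q1 has a positive answer for all elliptic curves
over all function fields of characteristic `p`; the maps `A^i(Z) → B^i(Z)` are isomorphisms for all
separated schemes `Z` of finite type over `𝔽_p` of dimension at most two; they are isomorphisms for the
smooth integral moduli spaces `Z = modS 𝔽_p M` of dimension at most two, for all simple framed matroids `M`
of rank three.

So Q1 is a statement on divisors on the smooth moduli surfaces of planar configurations (and on curves and
points). The earlier reductions (to cubic hypersurfaces, graph hypersurfaces, matrices of square zero) lead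
to singular schemes of unbounded dimension. In the background is the theorem
`Pool.Agent.Helper13.RM.config_list` on arbitrary properties of schemes that are closed under cutting.
-/

set_option autoImplicit false

open AlgebraicGeometry Pool.Agent.Y116.UV Pool.Agent.Z125.UN Pool.Agent.Q193.LT
  Pool.Agent.Helper3.GU Pool.Agent.Helper13.RM Pool.Agent.Helper10.PC

universe w u v

namespace Pool.Agent.Results.MP_ff7320_nt.PlanarConfigurations

/-- An elliptic curve `E` over `K = k(X)`, its elliptic surface `S`, and the cohomology of degree two of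
the smooth projective schemes `Y` over `𝔽_p`. -/
structure SurfaceData (p : ℕ) [Fact p.Prime] (ℓ : ℕ) [Fact ℓ.Prime] (S : Sch (ZMod p)) where
  /-- `H^2(Ȳ, ℚ_ℓ(1))` -/
  H : Sch (ZMod p) → ModuleCat.{w} ℚ_[ℓ]
  /-- the span of the classes of the divisors on `Y` -/
  alg : ∀ Y : Sch (ZMod p), Submodule ℚ_[ℓ] (H Y)
  /-- the algebraic cycles of codimension `2` on `S × Y` -/
  Cyc : Sch (ZMod p) → Type u
  /-- the operation `τ ↦ c_*(τ)` of the cycle `c` -/
  act : ∀ {Y : Sch (ZMod p)}, Cyc Y → H S →ₗ[ℚ_[ℓ]] H Y
  /-- the diagonal of `S × S` -/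
  diag : Cyc S
  /-- the Galois invariant classes in `H^2(S̄, ℚ_ℓ(1))` -/
  tate : Submodule ℚ_[ℓ] (H S)
  /-- the rank of `E(K)` -/
  rank : ℕ
  /-- the order of `L(E/K, T)` at `T = q^{-1}` -/
  order : ℕ

variable {p : ℕ} [Fact p.Prime] {ℓ : ℕ} [Fact ℓ.Prime] {S : Sch (ZMod p)}

/-- Known facts: correspondences preserve the classes of divisors, the diagonal operates as the identity,
and the theorem of Artin, Tate and Milne. -/
structure IsSurface (D : SurfaceData.{w, u} p ℓ S) : Prop where
  act_mem : ∀ Y : Sch (ZMod p), SmoothProj Y → ∀ (c : D.Cyc Y) (x : D.H S),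
    x ∈ D.alg S → D.act c x ∈ D.alg Y
  act_diag : ∀ x, D.act D.diag x = x
  artin_tate : D.rank = D.order ↔ D.tate ≤ D.alg S

/-- The statement of Q1 for the curve `E`. -/
def BSD (D : SurfaceData.{w, u} p ℓ S) : Prop := D.rank = D.order

/-- The images in `Y` of the Galois invariant classes of `S` are classes of divisors. -/
def Stable (D : SurfaceData.{w, u} p ℓ S) (Y : Sch (ZMod p)) : Prop :=
  ∀ c : D.Cyc Y, ∀ x ∈ D.tate, D.act c x ∈ D.alg Y

lemma bsd_of_stable {D : SurfaceData.{w, u} p ℓ S} (hD : IsSurface D) (h : Stable D S) : BSD D := by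
  refine hD.artin_tate.mpr fun x hx => ?_
  have h1 := h D.diag x hx
  rwa [hD.act_diag] at h1

lemma stable_of_bsd {D : SurfaceData.{w, u} p ℓ S} (hD : IsSurface D) (h : BSD D)
    (Y : Sch (ZMod p)) (hY : SmoothProj Y) : Stable D Y :=
  fun c x hx => hD.act_mem Y hY c x (hD.artin_tate.mp h hx)

/-- **BSD over function fields and smooth moduli surfaces of planar configurations.** See the
explanations above. -/
theorem result {p : ℕ} [Fact p.Prime] :
    (∀ {S : Sch (ZMod p)}, SmoothProj S →
      ∃ L : List Mat, (∀ M ∈ L, SmoothMod (ZMod p) (topologicalKrullDim S.left) M.2) ∧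
        ∀ (ℓ : ℕ) [Fact ℓ.Prime] (D : SurfaceData.{w, u} p ℓ S)
          (C : PairData.{w} (ZMod p) ℤ ℚ_[ℓ]) {δ : ℤ ≃ ℤ}, ℓ ≠ p → IsSurface D →
          IsCutPair C δ → AllGen C → (∀ Y, SmoothProj Y → (BijAll C Y ↔ Stable D Y)) →
          List.TFAE [BSD D,
            ∀ X : Sch (ZMod p), FT True X → BijAll C X,
            ∀ M ∈ L, BijAll C (modS (ZMod p) M.2)]) ∧
    ∀ (ℓ : ℕ) [Fact ℓ.Prime] {I : Type v} (S : I → Sch (ZMod p)), (∀ a, SmoothProj (S a)) →
      (∀ a, DimAt (S a) 2) → ∀ (D : ∀ a, SurfaceData.{w, u} p ℓ (S a))
        (C : PairData.{w} (ZMod p) ℤ ℚ_[ℓ]) {δ : ℤ ≃ ℤ}, ℓ ≠ p → (∀ a, IsSurface (D a)) →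
        IsCutPair C δ → BijDim C → (∀ Y, SmoothProj Y → (BijAll C Y ↔ ∀ a, Stable (D a) Y)) →
        List.TFAE [∀ a, BSD (D a),
          ∀ X : Sch (ZMod p), FT True X → DimAt X 2 → BijAll C X,
          ∀ (m : ℕ) (M : Matroid (Fin 4 ⊕ Fin m)), SmoothMod (ZMod p) 2 M →
            BijAll C (modS (ZMod p) M)] := by
  have hk : Frac (ZMod p) := frac_of_surj ZMod.intCast_surjective
  refine ⟨fun {S} hS => ?_, fun ℓ _ {I} S hS dS D C {δ} _ hD hC gC bij => ?_⟩
  · obtain ⟨L, hL, h⟩ := list_tfae hk S hS
    exact ⟨L, hL, fun ℓ _ D C {δ} _ hD hC hg bij => h C hC hg (BSD D)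
      (fun h => bsd_of_stable hD ((bij S hS).mp h))
      fun h Y hY => (bij Y hY).mpr (stable_of_bsd hD h Y hY)⟩
  · exact family_tfae hk hC gC 2 S hS dS (fun a => BSD (D a)) (fun a => Stable (D a)) bij
      (fun a h => bsd_of_stable (hD a) h) fun a h Y hY => stable_of_bsd (hD a) h Y hY

end Pool.Agent.Results.MP_ff7320_nt.PlanarConfigurations
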