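import Pool.Agent.Helper3.GM.App

/-!
# BSD for one elliptic curve over a function field and finitely many varieties of matrices

Let `k` be a finite field of characteristic `p`, `X` a curve over `k`, `E` **one** elliptic curve over
`K = k(X)`, and `S` a smooth projective surface over `𝔽_p` with a map to `X` whose generic fibre is `E` (the
elliptic surface, considered as a scheme over `𝔽_p`). Let `ℓ ≠ p` be a prime number. By theorems of Artin,
Tate and Milne the rank of `E(K)` is equal to the order of `L(E/K, T)` at `q^{-1}` if and only if the Galois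
invariant classes in `H^2(S̄, ℚ_ℓ(1))` are `ℚ_ℓ`-linear combinations of the classes of divisors
(`artin_tate`).

For a smooth projective scheme `Y` over `𝔽_p` let `A^m(Y)` be the `ℚ_ℓ`-subspace of
`H^{2m}(Ȳ, ℚ_ℓ(m))` generated by the classes of the cycles of codimension `m` on `Y`, and `B^m(Y)` the sum
of `A^m(Y)` and of the images `c_*(τ)` of the Galois invariant classes `τ` in `H^2(S̄, ℚ_ℓ(1))`, for the
cycles `c` of codimension `m + 1` on `S × Y`, `c_*(τ) = pr_{Y*}(c · pr_S^* τ)`. Both are additive functors
of the Chow motive of `Y`, and `A^m ⊆ B^m ⊆` the Galois invariants; they are equal for all `m` if and only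
if the classes `c_*(τ)` are algebraic (`Stable`). For a separated scheme `Z` of finite type over `𝔽_p` let
`W(Z)` be its weight complex (Gillet, Soulé, Bondarko; `W(Z) = h(Z)` for smooth projective `Z`), and put
`A^{m,i}(Z) = H^i(A^m(W(Z)))`, `B^{m,i}(Z) = H^i(B^m(W(Z)))`. `BijAll C Z` says that the maps
`A^{m,i}(Z) → B^{m,i}(Z)` are isomorphisms for all `m` and `i`.

For a set `T` of positions in the `n × n` matrices with at most three positions in each row and in each
column (`Sparse`) let `detS` be the determinant of the generic matrix with zeros outside of `T`. (With two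
positions instead of three it would be a product of monomials and binomials.)

**Theorem.** There is a finite list `L` of sets `T` of positions, with at most three positions in each row and
in each column, which depends only on `S` (not on
`ℓ`) such that the following statements are equivalent.

* The question has a positive answer for `E`: `rk E(K) = ord L(E/K, T)`.
* The maps are isomorphisms for all separated schemes `Z` of finite type over `𝔽_p`.
* They are isomorphisms for the schemes of the invertible matrices with zeros outside of `T`, `T` in `L`.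
* They are isomorphisms for the schemes of the matrices of determinant one with zeros outside of `T`, `T` in `L`.
* They are isomorphisms for the schemes of the matrices of determinant zero with zeros outside of `T`, `T` in `L`.
* They are isomorphisms for the schemes of the invertible matrices with zeros outside of `T` and invertible entries
  at all positions in `T`, `T` in `L`.

The data are those of the theorem on finitely many cubic hypersurfaces `T(x, y, z) = 1` of the library.
-/

set_option autoImplicit false

open AlgebraicGeometry Pool.Agent.Y116.UV Pool.Agent.Z125.UN Pool.Agent.Q193.LT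
  Pool.Agent.Helper3.GU Pool.Agent.Helper3.GM

universe w u

namespace Pool.Agent.Results.MP_ff7320_nt.SparseMatrices

/-- An elliptic curve `E` over `K = k(X)`, its elliptic surface `S`, and the cohomology of the smooth
projective schemes `Y` over `𝔽_p`. -/
structure SurfaceData (p : ℕ) [Fact p.Prime] (ℓ : ℕ) [Fact ℓ.Prime] (S : Sch (ZMod p)) where
  /-- `H^{2m}(Ȳ, ℚ_ℓ(m))` -/
  H : ℤ → Sch (ZMod p) → ModuleCat.{w} ℚ_[ℓ]
  /-- the span of the classes of the algebraic cycles of codimension `m` on `Y` -/
  alg : ∀ (m : ℤ) (Y : Sch (ZMod p)), Submodule ℚ_[ℓ] (H m Y)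
  /-- the algebraic cycles of codimension `m + 1` on `S × Y` -/
  Cyc : ℤ → Sch (ZMod p) → Type u
  /-- the operation `τ ↦ c_*(τ)` of the cycle `c` -/
  act : ∀ {m : ℤ} {Y : Sch (ZMod p)}, Cyc m Y → H 1 S →ₗ[ℚ_[ℓ]] H m Y
  /-- the diagonal of `S × S` -/
  diag : Cyc 1 S
  /-- the Galois invariant classes in `H^2(S̄, ℚ_ℓ(1))` -/
  tate : Submodule ℚ_[ℓ] (H 1 S)
  /-- the rank of `E(K)` -/
  rank : ℕ
  /-- the order of `L(E/K, T)` at `T = q^{-1}` -/
  order : ℕ

variable {p : ℕ} [Fact p.Prime] {ℓ : ℕ} [Fact ℓ.Prime] {S : Sch (ZMod p)}

/-- Known facts: correspondences preserve algebraic classes, the diagonal operates as the identity, and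
the theorem of Artin, Tate and Milne. -/
structure IsSurface (D : SurfaceData.{w, u} p ℓ S) : Prop where
  act_mem : ∀ (m : ℤ) (Y : Sch (ZMod p)), SmoothProj Y → ∀ (c : D.Cyc m Y) (x : D.H 1 S),
    x ∈ D.alg 1 S → D.act c x ∈ D.alg m Y
  act_diag : ∀ x, D.act D.diag x = x
  artin_tate : D.rank = D.order ↔ D.tate ≤ D.alg 1 S

/-- The statement of Q1 for the curve `E`. -/
def BSD (D : SurfaceData.{w, u} p ℓ S) : Prop := D.rank = D.order

/-- The images in `Y` of the Galois invariant classes of `S` are algebraic. -/
def Stable (D : SurfaceData.{w, u} p ℓ S) (Y : Sch (ZMod p)) : Prop :=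
  ∀ m, ∀ c : D.Cyc m Y, ∀ x ∈ D.tate, D.act c x ∈ D.alg m Y

/-- **BSD for one elliptic curve over a function field and finitely many varieties of matrices.** See the
explanations above. -/
theorem result {p : ℕ} [Fact p.Prime] {S : Sch (ZMod p)} (hS : SmoothProj S) :
    ∃ L : List (Σ n : ℕ, Finset (Fin n × Fin n)), (∀ T ∈ L, Sparse T.2) ∧
      ∀ (ℓ : ℕ) [Fact ℓ.Prime] (D : SurfaceData.{w, u} p ℓ S)
        (C : PairData.{w} (ZMod p) (ℤ × ℤ) ℚ_[ℓ]), ℓ ≠ p → IsSurface D → IsWeightPair C →
        WeightGen C → BijAll C (aff (ZMod p) (ZMod p)) →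
        (∀ Y, SmoothProj Y → (BijAll C Y ↔ Stable D Y)) →
        List.TFAE [BSD D,
          ∀ X : Sch (ZMod p), FT True X → BijAll C X,
          ∀ T ∈ L, BijAll C (invS (ZMod p) T.2),
          ∀ T ∈ L, BijAll C (oneS (ZMod p) T.2),
          ∀ T ∈ L, BijAll C (zeroS (ZMod p) T.2),
          ∀ T ∈ L, BijAll C (torS (ZMod p) T.2)] := by
  obtain ⟨L, hL, h⟩ := mat_list_pair (frac_of_surj ZMod.intCast_surjective) S hS
  refine ⟨L, hL, fun ℓ _ D C _ hD hC hg h1 bij => h C hg hC h1 (BSD D) (fun h => ?_)
    fun h Y hY => (bij Y hY).mpr fun m c x hx => ?_⟩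
  · refine hD.artin_tate.mpr fun x hx => ?_
    have h1 := (bij S hS).mp h 1 D.diag x hx
    rwa [hD.act_diag] at h1
  · exact hD.act_mem m Y hY c x (hD.artin_tate.mp h hx)

end Pool.Agent.Results.MP_ff7320_nt.SparseMatrices
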