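import Pool.Agent.Helper53.SZ.Pair

/-!
# BSD for one elliptic curve over a function field and matrices with square zero

Let `k` be a finite field of characteristic `p`, `X` a curve over `k`, `E` **one** elliptic curve over
`K = k(X)`, and `S` a smooth projective surface over `𝔽_p` with a map to `X` whose generic fibre is `E` (the
elliptic surface, considered as a scheme over `𝔽_p`). Let `ℓ ≠ p` be a prime number. By theorems of Artin,
Tate and Milne the rank of `E(K)` is equal to the order of `L(E/K, T)` at `q^{-1}` if and only if the Galois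
invariant classes in `H^2(S̄, ℚ_ℓ(1))` are `ℚ_ℓ`-linear combinations of the classes of divisors
(`artin_tate`).

Only divisors are used. For a smooth projective scheme `Y` over `𝔽_p` let `A(Y)` be the `ℚ_ℓ`-subspace of
`H^2(Ȳ, ℚ_ℓ(1))` generated by the classes of the divisors on `Y`, and `B(Y)` the sum of `A(Y)` and of the
images `c_*(τ)` of the Galois invariant classes `τ` in `H^2(S̄, ℚ_ℓ(1))`, for the cycles `c` of codimension
two on `S × Y`, `c_*(τ) = pr_{Y*}(c · pr_S^* τ)`. Both are additive functors of the effective Chow motive of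
`Y`, and they are equal if and only if the classes `c_*(τ)` are algebraic (`Stable`). For a separated
scheme `Z` of finite type over `𝔽_p` let `W(Z)` be its weight complex (Gillet, Soulé; a complex of
effective Chow motives, `W(Z) = h(Z)` for smooth projective `Z`), and put `A^i(Z) = H^i(A(W(Z)))`,
`B^i(Z) = H^i(B(W(Z)))`. `BijAll C Z` says that the maps `A^i(Z) → B^i(Z)` are isomorphisms for all `i`.
The complex `W(Z × 𝔾_m)` is the direct sum of `W(Z)[-1]` and of the twist `W(Z)(-1)`; only the first
summand is used (`IsPairOne`).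

**Theorem.** There is a finite list `L` of sets of positions above the diagonal of square matrices, which
depends only on `S` (not on `ℓ`), such that the following statements are equivalent.

* The question has a positive answer for `E`: `rk E(K) = ord L(E/K, T)`.
* The maps `A^i(Z) → B^i(Z)` are isomorphisms for all separated schemes `Z` of finite type over `𝔽_p`.
* They are isomorphisms for the schemes `Z` of the matrices `N` with `N² = 0` and with zeros outside of the
  positions of a pattern in `L`.
-/

set_option autoImplicit false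

open AlgebraicGeometry Pool.Agent.Y116.UV Pool.Agent.Q193.LT Pool.Agent.Q282.UK
  Pool.Agent.Helper53.SZ

universe w u

namespace Pool.Agent.Results.MP_ff7320_nt.SquareZeroMatrices

/-- An elliptic curve `E` over `K = k(X)`, its elliptic surface `S`, and the cohomology of degree two of
the smooth projective schemes `Y` over `𝔽_p`. -/
structure SurfaceData (p : ℕ) [Fact p.Prime] (ℓ : ℕ) [Fact ℓ.Prime] (S : Sch (ZMod p)) where
  /-- `H^2(Ȳ, ℚ_ℓ(1))` -/
  H : Sch (ZMod p) → ModuleCat.{w} ℚ_[ℓ]
  /-- the span of the classes of the divisors on `Y` -/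
  alg : ∀ Y : Sch (ZMod p), Submodule ℚ_[ℓ] (H Y)
  /-- the algebraic cycles of codimension two on `S × Y` -/
  Cyc : Sch (ZMod p) → Type u
  /-- the operation `τ ↦ c_*(τ)` of the cycle `c` -/
  act : ∀ {Y : Sch (ZMod p)}, Cyc Y → H S →ₗ[ℚ_[ℓ]] H Y
  /-- the diagonal of `S × S` -/
  diag : Cyc S
  /-- the Galois invariant classes in `H^2(S̄, ℚ_ℓ(1))` -/
  tate : Submodule ℚ_[ℓ] (H S)
  /-- the rank of `E(K)` -/
  rank : ℕ
  /-- the order of `L(E/K, T)` at `T = q^{-1}` -/
  order : ℕ

variable {p : ℕ} [Fact p.Prime] {ℓ : ℕ} [Fact ℓ.Prime] {S : Sch (ZMod p)}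

/-- Known facts: correspondences preserve the classes of divisors, the diagonal operates as the identity,
and the theorem of Artin, Tate and Milne. -/
structure IsSurface (D : SurfaceData.{w, u} p ℓ S) : Prop where
  act_mem : ∀ Y : Sch (ZMod p), SmoothProj Y → ∀ (c : D.Cyc Y) (x : D.H S),
    x ∈ D.alg S → D.act c x ∈ D.alg Y
  act_diag : ∀ x, D.act D.diag x = x
  artin_tate : D.rank = D.order ↔ D.tate ≤ D.alg S

/-- The statement of Q1 for the curve `E`. -/
def BSD (D : SurfaceData.{w, u} p ℓ S) : Prop := D.rank = D.order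

/-- The images in `Y` of the Galois invariant classes of `S` are classes of divisors. -/
def Stable (D : SurfaceData.{w, u} p ℓ S) (Y : Sch (ZMod p)) : Prop :=
  ∀ c : D.Cyc Y, ∀ x ∈ D.tate, D.act c x ∈ D.alg Y

/-- **BSD for one elliptic curve over a function field and matrices with square zero.** See the
explanations above. -/
theorem result {p : ℕ} [Fact p.Prime] {S : Sch (ZMod p)} (hS : SmoothProj S) :
    ∃ L : List (Σ m : ℕ, Fin m → Fin m → Prop), (∀ G ∈ L, ∀ i j, G.2 i j → i < j) ∧
      ∀ (ℓ : ℕ) [Fact ℓ.Prime] (D : SurfaceData.{w, u} p ℓ S)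
        (C : PairData.{w} (ZMod p) ℤ ℚ_[ℓ]) {δ σ : ℤ ≃ ℤ}, ℓ ≠ p → IsSurface D →
        IsPairOne C δ σ → PairGen C → (∀ Y, SmoothProj Y → (BijAll C Y ↔ Stable D Y)) →
        [BSD D,
          ∀ X : Sch (ZMod p), FT True X → BijAll C X,
          ∀ G ∈ L, BijAll C (squareZero (ZMod p) G.2)].TFAE := by
  have hk : Presents ({0, 1} : Set (ZMod p)) :=
    presents_frac (frac_of_surj ZMod.intCast_surjective)
  obtain ⟨L, hL, h⟩ := pair_list hk S hS
  refine ⟨L, hL, fun ℓ _ D C {δ σ} _ hD hC hg bij => h C hC hg (BSD D) (fun h => ?_)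
    fun h Y hY => (bij Y hY).mpr fun c x hx => ?_⟩
  · refine hD.artin_tate.mpr fun x hx => ?_
    have h1 := (bij S hS).mp h D.diag x hx
    rwa [hD.act_diag] at h1
  · exact hD.act_mem Y hY c x (hD.artin_tate.mp h hx)

end Pool.Agent.Results.MP_ff7320_nt.SquareZeroMatrices
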